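import Pool.Agent.Helper10.Ulam.Main

set_option autoImplicit false

open Pool.Agent.Helper10.Ulam

namespace Pool.Agent.Results.MP_7bafff_nt.Counterexample

/-- The Ulam sequence exists, and neither the Fibonacci number `F 20 = 6765` nor the Lucas number
`L 17 = 3571` is a term of it or a sum of two distinct terms. -/
theorem result : (∃ u : ℕ → ℕ, IsUlamSequence u) ∧
    ∀ u : ℕ → ℕ, IsUlamSequence u →
      (¬ SumOfAtMostTwo u (Nat.fib 20)) ∧ (¬ SumOfAtMostTwo u (lucas 17)) :=
  Pool.Agent.Helper10.Ulam.main

end Pool.Agent.Results.MP_7bafff_nt.Counterexample
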